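import Mathlib

set_option autoImplicit false

namespace Pool.Agent.Helper883.Cert

open Finset

/-- Key identity for one clique on a finite subset of a linear order. -/
lemma clique_identity {V : Type*} [LinearOrder V] (Q : Finset V) (z : V → ℝ) (hz : ∀ v, z v ^ 2 = 1) :
    ∑ x ∈ Q, ∑ y ∈ Q with x < y, (1 + z x) * (1 - z y)
      = ∑ x ∈ Q, ((Q.filter (fun y => x < y)).card : ℝ)
        + ∑ x ∈ Q, z x * (((Q.filter (fun y => x < y)).card : ℝ) - ((Q.filter (fun y => y < x)).card : ℝ))
        - ((∑ x ∈ Q, z x) ^ 2 - Q.card) / 2 := by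
  classical
  induction Q using Finset.induction_on_max with
  | empty => simp
  | insert a s hlt ih =>
    have ha : a ∉ s := fun h => lt_irrefl _ (hlt a h)
    rw [Finset.sum_insert ha, Finset.sum_insert ha, Finset.card_insert_of_notMem ha, Finset.sum_insert ha,
      Finset.sum_insert ha]
    -- pairs starting at a : none
    have h1 : (insert a s).filter (fun y => a < y) = ∅ := by
      ext y; simp only [mem_filter, mem_insert, notMem_empty, iff_false, not_and]
      rintro (rfl | hy)
      · exact lt_irrefl _
      · exact not_lt_of_gt (hlt y hy)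
    have h2 : (insert a s).filter (fun y => y < a) = s := by
      ext y; simp only [mem_filter, mem_insert]
      constructor
      · rintro ⟨rfl | hy, h⟩
        · exact absurd h (lt_irrefl _)
        · exact hy
      · intro hy; exact ⟨Or.inr hy, hlt y hy⟩
    have h3 : ∀ x ∈ s, (insert a s).filter (fun y => x < y) = insert a (s.filter (fun y => x < y)) := by
      intro x hx
      rw [Finset.filter_insert, if_pos (hlt x hx)]
    have h4 : ∀ x ∈ s, (insert a s).filter (fun y => y < x) = s.filter (fun y => y < x) := by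
      intro x hx
      rw [Finset.filter_insert, if_neg (not_lt_of_gt (hlt x hx))]
    rw [h1, h2]
    have e1 : ∑ x ∈ s, ∑ y ∈ insert a s with x < y, (1 + z x) * (1 - z y)
        = ∑ x ∈ s, ((1 + z x) * (1 - z a) + ∑ y ∈ s with x < y, (1 + z x) * (1 - z y)) := by
      apply Finset.sum_congr rfl
      intro x hx
      rw [h3 x hx, Finset.sum_insert]
      simp [ha]
    have e2 : ∑ x ∈ s, z x * ((((insert a s).filter (fun y => x < y)).card : ℝ) - (((insert a s).filter (fun y => y < x)).card : ℝ))
        = ∑ x ∈ s, (z x + z x * (((s.filter (fun y => x < y)).card : ℝ) - ((s.filter (fun y => y < x)).card : ℝ))) := by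
      apply Finset.sum_congr rfl
      intro x hx
      rw [h3 x hx, h4 x hx, Finset.card_insert_of_notMem (by simp [ha])]
      push_cast; ring
    have e3 : ∑ x ∈ s, (((insert a s).filter (fun y => x < y)).card : ℝ)
        = ∑ x ∈ s, (1 + ((s.filter (fun y => x < y)).card : ℝ)) := by
      apply Finset.sum_congr rfl
      intro x hx
      rw [h3 x hx, Finset.card_insert_of_notMem (by simp [ha])]
      push_cast; ring
    rw [e1, e2, e3, Finset.sum_add_distrib, Finset.sum_add_distrib, Finset.sum_add_distrib, ih, ← Finset.sum_mul,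
      Finset.sum_add_distrib]
    simp only [Finset.sum_empty, Finset.card_empty, Finset.sum_const, nsmul_eq_mul]
    have := hz a
    push_cast
    linear_combination (1/2 : ℝ) * this

/-- Bound for one partition of the vertex set into cliques (the fibres of `key`). -/
lemma level_bound {V κ : Type*} [LinearOrder V] [DecidableEq κ] (U : Finset V) (key : V → κ) (β : κ → ℝ)
    (R : Finset κ) (hR : ∀ x ∈ U, key x ∈ R) (z : V → ℝ) (hz : ∀ v, z v ^ 2 = 1) :
    ∑ x ∈ U, ∑ y ∈ U with x < y ∧ key x = key y, (1 + z x) * (1 - z y)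
      ≤ ∑ x ∈ U, ((U.filter (fun y => x < y ∧ key x = key y)).card : ℝ)
        + (U.card : ℝ) / 2 + (∑ k ∈ R, β k ^ 2) / 2
        + ∑ x ∈ U, z x * (((U.filter (fun y => x < y ∧ key x = key y)).card : ℝ)
            - ((U.filter (fun y => y < x ∧ key x = key y)).card : ℝ) - β (key x)) := by
  classical
  have hmaps : ∀ x ∈ U, key x ∈ R := hR
  rw [← Finset.sum_fiberwise_of_maps_to hmaps, ← Finset.sum_fiberwise_of_maps_to hmaps,
    ← Finset.sum_fiberwise_of_maps_to hmaps, Finset.card_eq_sum_card_fiberwise hmaps]
  have key1 : ∀ k ∈ R, ∑ x ∈ U with key x = k, ∑ y ∈ U with x < y ∧ key x = key y, (1 + z x) * (1 - z y)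
      ≤ ∑ x ∈ U with key x = k, ((U.filter (fun y => x < y ∧ key x = key y)).card : ℝ)
        + ((U.filter (fun x => key x = k)).card : ℝ) / 2 + β k ^ 2 / 2
        + ∑ x ∈ U with key x = k, z x * (((U.filter (fun y => x < y ∧ key x = key y)).card : ℝ)
            - ((U.filter (fun y => y < x ∧ key x = key y)).card : ℝ) - β (key x)) := by
    intro k _
    set Q := U.filter (fun x => key x = k) with hQ
    have f1 : ∀ x ∈ Q, U.filter (fun y => x < y ∧ key x = key y) = Q.filter (fun y => x < y) := by
      intro x hx
      have hxk : key x = k := (Finset.mem_filter.1 hx).2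
      ext y
      simp only [hQ, Finset.mem_filter, hxk]
      tauto
    have f2 : ∀ x ∈ Q, U.filter (fun y => y < x ∧ key x = key y) = Q.filter (fun y => y < x) := by
      intro x hx
      have hxk : key x = k := (Finset.mem_filter.1 hx).2
      ext y
      simp only [hQ, Finset.mem_filter, hxk]
      tauto
    have g1 : ∑ x ∈ Q, ∑ y ∈ U with x < y ∧ key x = key y, (1 + z x) * (1 - z y)
        = ∑ x ∈ Q, ∑ y ∈ Q with x < y, (1 + z x) * (1 - z y) := by
      apply Finset.sum_congr rfl
      intro x hx
      rw [f1 x hx]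
    have g2 : ∑ x ∈ Q, ((U.filter (fun y => x < y ∧ key x = key y)).card : ℝ)
        = ∑ x ∈ Q, ((Q.filter (fun y => x < y)).card : ℝ) := by
      apply Finset.sum_congr rfl
      intro x hx
      rw [f1 x hx]
    have g3 : ∑ x ∈ Q, z x * (((U.filter (fun y => x < y ∧ key x = key y)).card : ℝ)
            - ((U.filter (fun y => y < x ∧ key x = key y)).card : ℝ) - β (key x))
        = ∑ x ∈ Q, z x * (((Q.filter (fun y => x < y)).card : ℝ) - ((Q.filter (fun y => y < x)).card : ℝ))
          - β k * ∑ x ∈ Q, z x := by
      rw [Finset.mul_sum, ← Finset.sum_sub_distrib]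
      apply Finset.sum_congr rfl
      intro x hx
      rw [f1 x hx, f2 x hx, (Finset.mem_filter.1 hx).2]
      ring
    rw [g1, g2, g3, clique_identity Q z hz]
    nlinarith [sq_nonneg ((∑ x ∈ Q, z x) - β k)]
  have := Finset.sum_le_sum key1
  rw [Finset.sum_add_distrib, Finset.sum_add_distrib, Finset.sum_add_distrib] at this
  refine this.trans (le_of_eq ?_)
  push_cast
  rw [Finset.sum_div, Finset.sum_div]

end Pool.Agent.Helper883.Cert
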